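import Mathlib

namespace Pool.Agent.Results.MP_d3b762_co.NoCoincidence

open Filter

/-- `E₁(p,q) = {A : {n : {m : n^m ∈ A} ∈ q} ∈ p}` -/
noncomputable def E1 (p q : Ultrafilter ℕ+) : Ultrafilter ℕ+ :=
  p.bind (fun n => q.map (fun m => n ^ (m : ℕ)))

/-- `E₂(p,q) = {A : {n : {m : m^n ∈ A} ∈ q} ∈ p}` -/
noncomputable def E2 (p q : Ultrafilter ℕ+) : Ultrafilter ℕ+ :=
  p.bind (fun n => q.map (fun m => m ^ (n : ℕ)))

/-- sanity check: membership in `E₁` -/
theorem mem_E1 (p q : Ultrafilter ℕ+) (A : Set ℕ+) :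
    A ∈ E1 p q ↔ {n : ℕ+ | {m : ℕ+ | n ^ (m : ℕ) ∈ A} ∈ q} ∈ p := Iff.rfl

/-- sanity check: membership in `E₂` -/
theorem mem_E2 (p q : Ultrafilter ℕ+) (A : Set ℕ+) :
    A ∈ E2 p q ↔ {n : ℕ+ | {m : ℕ+ | m ^ (n : ℕ) ∈ A} ∈ q} ∈ p := Iff.rfl

/-- integer base two logarithm -/
abbrev L (n : ℕ) : ℕ := Nat.log 2 n

theorem L_mul_le (a b : ℕ) : L (a * b) ≤ L a + L b + 1 := by
  rcases Nat.eq_zero_or_pos a with rfl | ha
  · simp
  rcases Nat.eq_zero_or_pos b with rfl | hb
  · simp
  have h1 : a < 2 ^ (L a + 1) := Nat.lt_pow_succ_log_self (by norm_num) a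
  have h2 : b < 2 ^ (L b + 1) := Nat.lt_pow_succ_log_self (by norm_num) b
  have h3 : a * b < 2 ^ (L a + L b + 1 + 1) := by
    calc a * b < 2 ^ (L a + 1) * 2 ^ (L b + 1) := Nat.mul_lt_mul'' h1 h2
      _ = 2 ^ (L a + L b + 1 + 1) := by rw [← pow_add]; ring_nf
  exact Nat.lt_succ_iff.1 ((Nat.log_lt_iff_lt_pow (by norm_num) (by positivity)).2 h3)

theorem L_mono {a b : ℕ} (h : a ≤ b) : L a ≤ L b := Nat.log_mono_right h

theorem L_two_mul {a : ℕ} (ha : 0 < a) : L (2 * a) = L a + 1 := by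
  rw [mul_comm]
  exact Nat.log_mul_base (by norm_num) (by omega)

theorem L_add_le {a b : ℕ} (ha : 0 < a) (h : b ≤ a) : L (a + b) ≤ L a + 1 := by
  rw [← L_two_mul ha]
  exact L_mono (by omega)

theorem le_L {k a : ℕ} (h : 2 ^ k ≤ a) : k ≤ L a := by
  have : a ≠ 0 := by
    rintro rfl
    have := Nat.two_pow_pos k
    omega
  exact (Nat.le_log_iff_pow_le (by norm_num) this).2 h

theorem L_le_self (a : ℕ) : L a ≤ a := Nat.log_le_self 2 a

/-- first family of bounds -/
theorem bound1 {n m : ℕ} (hn : 2 ≤ n) (hm : 2 ^ (4 * n) ≤ m) :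
    L (L (L (n ^ m))) = L (L m) ∨ L (L (L (n ^ m))) = L (L m) + 1 := by
  have hLm : 4 * n ≤ L m := le_L hm
  have h1 : m ≤ L (n ^ m) := le_L (Nat.pow_le_pow_left hn m)
  have h2 : L (n ^ m) ≤ n * m := by
    have : n ^ m < 2 ^ (n * m) := by
      rw [pow_mul]
      exact Nat.pow_lt_pow_left Nat.lt_two_pow_self (by
        rintro rfl
        have := Nat.two_pow_pos (4 * n)
        omega)
    exact ((Nat.log_lt_iff_lt_pow (by norm_num) (by positivity)).2 this).le
  have h3 : L m ≤ L (L (n ^ m)) := L_mono h1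
  have h4 : L (L (n ^ m)) ≤ L m + (L n + 1) := by
    have := (L_mono h2).trans (L_mul_le n m)
    omega
  have h5 : L (L m) ≤ L (L (L (n ^ m))) := L_mono h3
  have h6 : L (L (L (n ^ m))) ≤ L (L m) + 1 := by
    refine (L_mono h4).trans (L_add_le (by omega) ?_)
    have := L_le_self n
    omega
  omega

/-- second family of bounds -/
theorem bound2 {n m : ℕ} (hn : 2 ≤ n) (hm : 2 ^ (2 ^ (4 * n)) ≤ m) :
    L (L (L (m ^ n))) = L (L (L m)) ∨ L (L (L (m ^ n))) = L (L (L m)) + 1 := by
  have hLm : 2 ^ (4 * n) ≤ L m := le_L hm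
  have hLLm : 4 * n ≤ L (L m) := le_L hLm
  have hm0 : m ≠ 0 := by
    rintro rfl
    simp at hLLm
    omega
  have hLm1 : 1 ≤ L m := le_trans (Nat.one_le_two_pow) hLm
  have h1 : L m ≤ L (m ^ n) := by
    apply L_mono
    exact Nat.le_self_pow (by omega) m
  have h2 : L (m ^ n) ≤ (2 * n) * L m := by
    have hlt : m < 2 ^ (L m + 1) := Nat.lt_pow_succ_log_self (by norm_num) m
    have : m ^ n < 2 ^ ((L m + 1) * n) := by
      rw [pow_mul]
      exact Nat.pow_lt_pow_left hlt (by omega)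
    have h := ((Nat.log_lt_iff_lt_pow (by norm_num) (by positivity)).2 this).le
    have h' : (L m + 1) * n ≤ (2 * n) * L m := by nlinarith
    exact h.trans h'
  have h3 : L (L m) ≤ L (L (m ^ n)) := L_mono h1
  have h4 : L (L (m ^ n)) ≤ L (L m) + (L (2 * n) + 1) := by
    have := (L_mono h2).trans (L_mul_le (2 * n) (L m))
    omega
  have h5 : L (L (L m)) ≤ L (L (L (m ^ n))) := L_mono h3
  have h6 : L (L (L (m ^ n))) ≤ L (L (L m)) + 1 := by
    refine (L_mono h4).trans (L_add_le (by omega) ?_)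
    have := L_le_self (2 * n)
    omega
  omega

/-- The alternating colouring along the iteration `x ↦ L (x - ε) + δ`. -/
def col (e d : ℕ) (x : ℕ) : Bool :=
  if _h : L (x - e) + d < x then !(col e d (L (x - e) + d)) else false
termination_by x

theorem col_eq (e d x : ℕ) (h : L x + d < x + e) :
    col e d (x + e) = !(col e d (L x + d)) := by
  rw [col]
  have e1 : x + e - e = x := by omega
  rw [e1, dif_pos h]

theorem log_small {d x : ℕ} (hd : d ≤ 1) (hx : 4 ≤ x) : L x + d < x := by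
  have h1 : x < 2 ^ (x - 1) := by
    clear hd
    induction x, hx using Nat.le_induction with
    | base => norm_num
    | succ n hn ih =>
      have : n + 1 - 1 = (n - 1) + 1 := by omega
      rw [this, pow_succ]
      omega
  have h2 : L x < x - 1 := (Nat.log_lt_iff_lt_pow (by norm_num) (by omega)).2 h1
  omega

theorem no_coincidence (y : Ultrafilter ℕ) (hy : ∀ N, {x | N ≤ x} ∈ y) (e d : ℕ) (hd : d ≤ 1) :
    y.map (fun x => x + e) ≠ y.map (fun x => L x + d) := by
  intro h
  set A : Set ℕ := {x | col e d x = true} with hA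
  have hflip : ∀ x, 4 ≤ x → (x + e ∈ A ↔ ¬ (L x + d ∈ A)) := by
    intro x hx
    have := col_eq e d x (by have := log_small hd hx; omega)
    simp only [hA, Set.mem_ofPred_eq, this]
    simp
  have hiff : A ∈ y.map (fun x => x + e) ↔ A ∈ y.map (fun x => L x + d) := by rw [h]
  rw [Ultrafilter.mem_map, Ultrafilter.mem_map] at hiff
  have h4 := hy 4
  by_cases hc : (fun x => x + e) ⁻¹' A ∈ y
  · have hc2 := hiff.1 hc
    have := Filter.inter_mem (Filter.inter_mem h4 hc) hc2
    obtain ⟨x, ⟨hx1, hx2⟩, hx3⟩ := Ultrafilter.nonempty_of_mem this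
    exact (hflip x hx1).1 hx2 hx3
  · have hc2 : (fun x => L x + d) ⁻¹' A ∉ y := fun hh => hc (hiff.2 hh)
    have hd1 := Ultrafilter.compl_mem_iff_notMem.2 hc
    have hd2 := Ultrafilter.compl_mem_iff_notMem.2 hc2
    have := Filter.inter_mem (Filter.inter_mem h4 hd1) hd2
    obtain ⟨x, ⟨hx1, hx2⟩, hx3⟩ := Ultrafilter.nonempty_of_mem this
    exact hx2 ((hflip x hx1).2 hx3)

theorem bind_const {α β : Type*} (p : Ultrafilter α) (F : α → Ultrafilter β) (v : Ultrafilter β)
    (h : {n | F n = v} ∈ p) : p.bind F = v := by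
  apply Ultrafilter.coe_injective
  ext A
  change {n | A ∈ F n} ∈ p ↔ A ∈ v
  constructor
  · intro h1
    obtain ⟨x, hx1, hx2⟩ := Ultrafilter.nonempty_of_mem (Filter.inter_mem h h1)
    simp only [Set.mem_ofPred_eq] at hx1 hx2
    rwa [hx1] at hx2
  · intro h1
    apply Filter.mem_of_superset h
    intro x hx
    simp only [Set.mem_ofPred_eq] at hx ⊢
    rwa [hx]

theorem map_congr' {α β : Type*} (p : Ultrafilter α) (f g : α → β) (h : {n | f n = g n} ∈ p) :
    p.map f = p.map g := by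
  apply Ultrafilter.coe_injective
  simp only [Ultrafilter.coe_map]
  exact Filter.map_congr h

theorem bind_two {β : Type*} (p : Ultrafilter ℕ+) (F : ℕ+ → Ultrafilter β) (v w : Ultrafilter β)
    (h : {n | F n = v ∨ F n = w} ∈ p) : p.bind F = v ∨ p.bind F = w := by
  have : {n | F n = v} ∪ {n | F n = w} ∈ p := h
  rcases Ultrafilter.union_mem_iff.1 this with h1 | h1
  · exact Or.inl (bind_const p F v h1)
  · exact Or.inr (bind_const p F w h1)

theorem map_two {β : Type*} (p : Ultrafilter ℕ+) (f g k : ℕ+ → β)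
    (h : {n | f n = g n ∨ f n = k n} ∈ p) : p.map f = p.map g ∨ p.map f = p.map k := by
  have : {n | f n = g n} ∪ {n | f n = k n} ∈ p := h
  rcases Ultrafilter.union_mem_iff.1 this with h1 | h1
  · exact Or.inl (map_congr' p f g h1)
  · exact Or.inr (map_congr' p f k h1)

/-- **Main theorem.** No nonprincipal ultrafilter on the positive integers satisfies
`E₁(p,p) = E₂(p,p)`. -/
theorem result (p : Ultrafilter ℕ+) (hp : ∀ n : ℕ+, p ≠ pure n) : E1 p p ≠ E2 p p := by
  intro hE
  -- p contains all final segments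
  have hlarge : ∀ N : ℕ, {m : ℕ+ | N ≤ (m : ℕ)} ∈ p := by
    intro N
    by_contra hcon
    have h1 := Ultrafilter.compl_mem_iff_notMem.2 hcon
    have hfin : ({m : ℕ+ | N ≤ (m : ℕ)}ᶜ).Finite := by
      have : {m : ℕ+ | N ≤ (m : ℕ)}ᶜ = (fun m : ℕ+ => (m : ℕ)) ⁻¹' (Set.Iio N) := by
        ext m; simp
      rw [this]
      exact (Set.finite_Iio N).preimage (PNat.coe_injective.injOn)
    obtain ⟨x, _, hx⟩ := Ultrafilter.eq_pure_of_finite_mem hfin h1
    exact hp x hx
  let T : ℕ+ → ℕ := fun x => L (L (L (x : ℕ)))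
  let Y : ℕ+ → ℕ := fun x => L (L (x : ℕ))
  set y : Ultrafilter ℕ := p.map Y with hy
  have hylarge : ∀ N, {x | N ≤ x} ∈ y := by
    intro N
    rw [hy, Ultrafilter.mem_map]
    apply Filter.mem_of_superset (hlarge (2 ^ (2 ^ N)))
    intro m hm
    simp only [Set.mem_ofPred_eq, Set.mem_preimage] at hm ⊢
    exact le_L (le_L hm)
  have hmapbind : ∀ (F : ℕ+ → Ultrafilter ℕ+), (p.bind F).map T = p.bind (fun n => (F n).map T) := by
    intro F
    rfl
  have hE1 : (E1 p p).map T = y.map (fun x => x + 0) ∨ (E1 p p).map T = y.map (fun x => x + 1) := by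
    unfold E1
    rw [hmapbind]
    apply bind_two
    apply Filter.mem_of_superset (hlarge 2)
    intro n hn
    simp only [Set.mem_ofPred_eq] at hn ⊢
    rw [hy]
    simp only [Ultrafilter.map_map]
    apply map_two
    apply Filter.mem_of_superset (hlarge (2 ^ (4 * (n : ℕ))))
    intro m hm
    simp only [Set.mem_ofPred_eq] at hm
    have := bound1 hn hm
    simpa [T, Y, Function.comp] using this
  have hE2 : (E2 p p).map T = y.map (fun x => L x + 0) ∨ (E2 p p).map T = y.map (fun x => L x + 1) := by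
    unfold E2
    rw [hmapbind]
    apply bind_two
    apply Filter.mem_of_superset (hlarge 2)
    intro n hn
    simp only [Set.mem_ofPred_eq] at hn ⊢
    rw [hy]
    simp only [Ultrafilter.map_map]
    apply map_two
    apply Filter.mem_of_superset (hlarge (2 ^ (2 ^ (4 * (n : ℕ)))))
    intro m hm
    simp only [Set.mem_ofPred_eq] at hm
    have := bound2 hn hm
    simpa [T, Y, Function.comp] using this
  rw [hE] at hE1
  rcases hE1 with h1 | h1 <;> rcases hE2 with h2 | h2 <;>
    exact no_coincidence y hylarge _ _ (by norm_num) (h1.symm.trans h2)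

end Pool.Agent.Results.MP_d3b762_co.NoCoincidence
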